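import Mathlib

set_option autoImplicit false

namespace Pool.Agent.H.MP_84fce2_co

open Finset Equiv

variable {X C : Type*}

def Df (c : X → C) (g : Perm X) (k : ℕ) : Prop :=
  ∃ s : Finset X, s.card ≤ k ∧ ∀ x, x ∉ s → c (g x) = c x

lemma Df.mono {c : X → C} {g : Perm X} {k l : ℕ} (h : Df c g k) (hk : k ≤ l) : Df c g l :=
  h.imp fun _ h => ⟨h.1.trans hk, h.2⟩

lemma Df.mul {c : X → C} {g h : Perm X} {k l : ℕ} (a : Df c g k) (b : Df c h l) :
    Df c (g * h) (k + l) := by
  classical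
  obtain ⟨s, s1, s2⟩ := a
  obtain ⟨t, t1, t2⟩ := b
  refine ⟨s.image h.symm ∪ t, (card_union_le _ _).trans (add_le_add (card_image_le.trans s1) t1),
    fun x hx => ?_⟩
  rw [mem_union, not_or] at hx
  rw [Perm.mul_apply, s2 _ fun e => hx.1 (mem_image.2 ⟨_, e, by simp⟩), t2 x hx.2]

lemma Df.inv {c : X → C} {g : Perm X} {k : ℕ} (a : Df c g k) : Df c g⁻¹ k := by
  classical
  obtain ⟨s, s1, s2⟩ := a
  refine ⟨s.image g, card_image_le.trans s1, fun x hx => ?_⟩
  rw [← s2 _ fun e => hx (mem_image.2 ⟨_, e, by simp⟩)]; simp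

lemma iso (c : X → C) (H : Subgroup (Perm X)) (hc : ∀ a ∈ H, ∀ b ∈ H, a * b = b * a) (Z : Set X)
    (hZ : ∀ h ∈ H, ∀ x ∈ Z, h x ∈ Z) (fr : ∀ h ∈ H, ∀ x ∈ Z, h x = x → h = 1) {k : ℕ}
    (T : Finset (Perm X)) (hT : ∀ t ∈ T, t ∈ H ∧ Df c t k) (big : 6 * k < T.card) :
    ∃ (d : X → C) (E : Finset X), E.card ≤ 4 * k ∧ (∀ x, x ∉ E → d x = c x) ∧
      ∀ s ∈ H, Df c s k → ∀ x ∈ Z, d (s x) = d x := by
  classical
  choose! D D1 D2 using fun t ht => (hT t ht).2
  have inj : ∀ x ∈ Z, Set.InjOn (fun t : Perm X => t x) T := fun x hx t ht u hu e => by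
    have := fr (u⁻¹ * t) (H.mul_mem (H.inv_mem (hT u hu).1) (hT t ht).1) x hx
      (by rw [Perm.mul_apply, show t x = u x from e]; simp)
    exact (inv_mul_eq_one.1 this).symm
  set E := (T.biUnion D).filter fun x => T.card < 4 * (T.filter fun t => x ∈ D t).card with hE
  have E1 : E.card ≤ 4 * k := by
    have h1 : ∑ x ∈ E, (T.filter fun t => x ∈ D t).card = ∑ t ∈ T, (E.filter fun x => x ∈ D t).card :=
      sum_card_bipartiteAbove_eq_sum_card_bipartiteBelow fun x t => x ∈ D t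
    have h2 : ∑ t ∈ T, (E.filter fun x => x ∈ D t).card ≤ T.card * k :=
      sum_le_card_nsmul _ _ _ fun t ht =>
        (card_le_card fun x hx => (mem_filter.1 hx).2).trans (D1 t ht)
    have h3 : E.card * T.card ≤ ∑ x ∈ E, 4 * (T.filter fun t => x ∈ D t).card :=
      card_nsmul_le_sum _ _ _ fun x hx => (mem_filter.1 hx).2.le
    rw [← mul_sum] at h3
    exact Nat.le_of_mul_le_mul_right (c := T.card) (by nlinarith) (by omega)
  have good : ∀ x, x ∉ E → 4 * (T.filter fun t => x ∈ D t).card ≤ T.card := fun x hx => by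
    by_contra h
    obtain ⟨t, ht⟩ : (T.filter fun t => x ∈ D t).Nonempty := card_pos.1 (by omega)
    exact hx (mem_filter.2 ⟨mem_biUnion.2 ⟨t, mem_filter.1 ht⟩, by omega⟩)
  have key : ∀ s ∈ H, Df c s (3 * k) → ∀ x ∈ Z, x ∉ E → s x ∉ E → c (s x) = c x := by
    rintro s hs ⟨F, F1, F2⟩ x hx a b
    by_contra ne
    have h1 : T ⊆ (T.filter fun t => x ∈ D t) ∪ (T.filter fun t => s x ∈ D t) ∪
        T.filter fun t => t x ∈ F := fun t ht => by
      by_contra h
      simp only [mem_union, mem_filter, ht, true_and, not_or] at h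
      have := F2 _ h.2
      rw [← Perm.mul_apply, hc s hs t (hT t ht).1, Perm.mul_apply, D2 t ht _ h.1.1,
        D2 t ht _ h.1.2] at this
      exact ne this
    have h2 : (T.filter fun t => t x ∈ F).card ≤ F.card := card_le_card_of_injOn (fun t => t x)
      (fun t ht => (mem_filter.1 ht).2) ((inj x hx).mono (coe_subset.2 (filter_subset _ _)))
    have h3 := (card_le_card h1).trans ((card_union_le _ _).trans
      (add_le_add (card_union_le _ _) h2))
    have := good _ a
    have := good _ b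
    omega
  have ex : ∀ x ∈ Z, ∃ t ∈ T, t x ∉ E := fun x hx => by
    by_contra h
    push Not at h
    have := card_le_card_of_injOn (fun t : Perm X => t x) h (inj x hx)
    omega
  choose! u u1 u2 using ex
  have dt := fun x hx => hT _ (u1 x hx)
  refine ⟨fun x => if x ∈ Z then c (u x x) else c x, E, E1, fun x hx => ?_, fun s hs ds x hx => ?_⟩
  · beta_reduce
    split_ifs with h
    · exact key _ (dt x h).1 ((dt x h).2.mono (by omega)) x h hx (u2 x h)
    · rfl
  · have hy := hZ s hs x hx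
    simp only [hx, hy, if_true]
    have := key (u (s x) * s * (u x)⁻¹) (H.mul_mem (H.mul_mem (dt _ hy).1 hs) (H.inv_mem (dt x hx).1))
      ((((dt _ hy).2.mul ds).mul (dt x hx).2.inv).mono (by omega)) (u x x)
      (hZ _ (dt x hx).1 x hx) (u2 x hx) (by simpa using u2 _ hy)
    simpa using this

lemma iso2 (c : X → C) (H : Subgroup (Perm X)) (hc : ∀ a ∈ H, ∀ b ∈ H, a * b = b * a) (Z : Set X)
    (hZ : ∀ h ∈ H, ∀ x ∈ Z, h x ∈ Z) (fr : ∀ h ∈ H, ∀ x ∈ Z, h x = x → h = 1) {k : ℕ}
    (T : Finset (Perm X)) (hT : ∀ t ∈ T, t ∈ H ∧ Df c t (16 * k)) (big : 145 * k < T.card) :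
    ∃ (d : X → C) (E : Finset X), E.card ≤ 72 * k ∧ (∀ x, x ∉ E → d x = c x) ∧
      ∀ g : Perm X, Df c g k → (∀ h ∈ H, g * h * g⁻¹ ∈ H) → (∀ x ∈ Z, g x ∈ Z) →
        ∀ x ∈ Z, d (g x) = d x := by
  classical
  obtain ⟨d, E, h1, h2, h3⟩ := iso c H hc Z hZ fr (k := 18 * k) T
    (fun t ht => ⟨(hT t ht).1, (hT t ht).2.mono (by omega)⟩) (by omega)
  refine ⟨d, E, by omega, h2, fun g dg gH gZ x hx => ?_⟩
  by_contra ne
  obtain ⟨F, F1, F2⟩ := id dg
  have := card_le_card_of_injOn (s := T) (t := E ∪ E.image g.symm ∪ F) (fun t : Perm X => t x)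
    (fun t ht => by
      by_contra h
      simp only [coe_union, Set.mem_union, mem_coe, not_or] at h
      have a := h3 t (hT t ht).1 ((hT t ht).2.mono (by omega)) x hx
      have b := h3 _ (gH t (hT t ht).1) (((dg.mul (hT t ht).2).mul dg.inv).mono (by omega)) (g x)
        (gZ x hx)
      simp only [Perm.mul_apply, Perm.coe_inv, symm_apply_apply] at b
      rw [← a, ← b, h2 _ h.1.1, h2 _ fun e => h.1.2 (mem_image.2 ⟨_, e, by simp⟩), F2 _ h.2] at ne
      exact ne rfl)
    fun t ht u hu e => (inv_mul_eq_one.1 (fr (u⁻¹ * t)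
      (H.mul_mem (H.inv_mem (hT u hu).1) (hT t ht).1) x hx
      (by rw [Perm.mul_apply, show t x = u x from e]; simp))).symm
  have h4 := (card_union_le (E ∪ E.image g.symm) F).trans
    (add_le_add ((card_union_le _ _).trans (add_le_add le_rfl card_image_le)) F1)
  omega

lemma indep [DecidableEq X] (g : Perm X) (M : Finset X) (h : ∀ x ∈ M, g x ≠ x) :
    ∃ I ⊆ M, M.card ≤ 3 * I.card ∧ ∀ x ∈ I, g x ∉ I := by
  induction M using Finset.strongInduction with
  | H M ih =>
    rcases M.eq_empty_or_nonempty with rfl | ⟨u, hu⟩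
    · exact ⟨∅, by simp⟩
    have ss : M \ {u, g u, g.symm u} ⊂ M := ⟨sdiff_subset, fun e => by simpa using e hu⟩
    obtain ⟨I, h1, h2, h3⟩ := ih _ ss fun x hx => h x (ss.1 hx)
    have nu : u ∉ I := fun e => by simpa using h1 e
    refine ⟨insert u I, insert_subset hu (h1.trans ss.1), ?_, fun x hx e => ?_⟩
    · have := le_card_sdiff {u, g u, g.symm u} M
      have : ({u, g u, g.symm u} : Finset X).card ≤ 3 := card_le_three
      rw [card_insert_of_notMem nu]; omega
    · rcases mem_insert.1 hx with rfl | hx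
      · rcases mem_insert.1 e with e | e
        · exact h x hu e
        · simpa using h1 e
      · rcases mem_insert.1 e with e | e
        · have := h1 hx
          simp [← e] at this
        · exact h3 x hx e

end Pool.Agent.H.MP_84fce2_co
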