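import Pool.Agent.H.MP_84fce2_co.A

set_option autoImplicit false

namespace Pool.Agent.H.MP_84fce2_co

open Finset Equiv

def Tr : Subgroup (Perm ℂ) where
  carrier := {g | ∃ b, ∀ z, g z = z + b}
  one_mem' := ⟨0, by simp⟩
  mul_mem' := fun ⟨a, h⟩ ⟨b, k⟩ => ⟨b + a, fun z => by rw [Perm.mul_apply, h, k, add_assoc]⟩
  inv_mem' := fun ⟨a, h⟩ => ⟨-a, fun z => by rw [Perm.inv_eq_iff_eq, h]; ring⟩

def Rot (o : ℂ) : Subgroup (Perm ℂ) where
  carrier := {g | ∃ a, a ≠ 0 ∧ ∀ z, g z = a * (z - o) + o}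
  one_mem' := ⟨1, one_ne_zero, by simp⟩
  mul_mem' := fun ⟨a, ha, h⟩ ⟨b, hb, k⟩ =>
    ⟨a * b, mul_ne_zero ha hb, fun z => by rw [Perm.mul_apply, h, k]; ring⟩
  inv_mem' := fun ⟨a, ha, h⟩ => ⟨a⁻¹, inv_ne_zero ha, fun z => by
    rw [Perm.inv_eq_iff_eq, h]; field_simp; ring⟩

lemma geo {C : Type*} (c : ℂ → C) (σ : ℂ →+* ℂ) (hσ : ∀ z, σ (σ z) = z) (a b : Perm ℂ → ℂ)
    {k M : ℕ} (hM : 145 * k + 1 < M) (G : Finset (Perm ℂ)) (hG : M * M ≤ G.card)
    (h0 : ∀ g ∈ G, a g ≠ 0) (h1 : ∀ g ∈ G, ∀ z, g z = a g * σ z + b g) (h2 : ∀ g ∈ G, Df c g k) :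
    ∃ G' ⊆ G, M ≤ G'.card ∧ ∃ (d : ℂ → C) (E : Finset ℂ), E.card ≤ 72 * k ∧
      (∀ x, x ∉ E → d x = c x) ∧ ∀ g ∈ G', ∀ x, d (g x) = d x := by
  classical
  have iv : ∀ g ∈ G, ∀ z, g⁻¹ z = σ ((z - b g) / a g) := fun g hg z => by
    have := h0 g hg
    rw [Perm.inv_eq_iff_eq, h1 g hg, hσ]; field_simp; ring
  have qt : ∀ g ∈ G, ∀ h ∈ G, ∀ z, (g * h⁻¹) z = a g / a h * (z - b h) + b g := fun g hg h hh z => by
    rw [Perm.mul_apply, iv h hh, h1 g hg, hσ]; ring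
  have cj : ∀ g ∈ G, ∀ (r : Perm ℂ) (p o q : ℂ), (∀ z, r z = p * (z - o) + q) → ∀ z,
      (g * r * g⁻¹) z = σ p * (z - g o) + g q := fun g hg r p o q hr z => by
    have := h0 g hg
    rw [Perm.mul_apply, Perm.mul_apply, iv g hg, hr, h1 g hg, h1 g hg o, h1 g hg q]
    simp only [map_add, map_mul, map_sub, hσ]; field_simp; ring
  have MG : M ≤ G.card := le_trans (by nlinarith) hG
  have tr : ∀ T : Finset (Perm ℂ), M ≤ T.card → (∀ t ∈ T, t ∈ Tr ∧ Df c t (16 * k)) →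
      ∃ G' ⊆ G, M ≤ G'.card ∧ ∃ (d : ℂ → C) (E : Finset ℂ), E.card ≤ 72 * k ∧
      (∀ x, x ∉ E → d x = c x) ∧ ∀ g ∈ G', ∀ x, d (g x) = d x := fun T t1 t2 => by
    obtain ⟨d, E, e1, e2, e3⟩ := iso2 c Tr (by
      rintro g ⟨u, hu⟩ h ⟨v, hv⟩
      ext z; simp only [Perm.mul_apply, hu, hv]; ring) Set.univ (by simp) (by
      rintro g ⟨u, hu⟩ x - e
      ext z; rw [hu] at e ⊢; simpa using e) T t2 (by omega)
    refine ⟨G, Subset.refl _, MG, d, E, e1, e2, fun g hg x => e3 g (h2 g hg) ?_ (by simp) x trivial⟩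
    rintro h ⟨u, hu⟩
    exact ⟨g u - g 0, fun z => by rw [cj g hg h 1 0 u (by simpa using hu), map_one]; ring⟩
  by_cases f : ∃ y ∈ G.image a, M ≤ (G.filter fun g => a g = y).card
  · obtain ⟨y, -, f⟩ := f
    obtain ⟨h, hh⟩ : (G.filter fun g => a g = y).Nonempty := card_pos.1 (by omega)
    refine tr ((G.filter fun g => a g = y).image (· * h⁻¹))
      (by rwa [card_image_of_injective _ (mul_left_injective _)]) fun t ht => ?_
    obtain ⟨g, hg, rfl⟩ := mem_image.1 ht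
    rw [mem_filter] at hg hh
    refine ⟨⟨b g - b h, fun z => ?_⟩, ((h2 g hg.1).mul (h2 h hh.1).inv).mono (by omega)⟩
    rw [qt g hg.1 h hh.1, hg.2, ← hh.2, div_self (h0 h hh.1)]; ring
  push Not at f
  obtain ⟨U, u1, u2, u3⟩ := exists_subset_injOn_image_eq_of_surjOn (f := a) (G : Set (Perm ℂ))
    (G.image a) (by simp [Set.SurjOn])
  have u4 : M ≤ U.card := by
    have := card_le_mul_card_image (f := a) G (M - 1) fun y hy => by have := f y hy; omega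
    rw [← u3, card_image_of_injOn u2] at this
    by_contra h
    have : (M - 1) * U.card < M * M := Nat.mul_lt_mul'' (by omega) (by omega)
    omega
  have u1 : U ⊆ G := u1
  obtain ⟨h, hh, j, hj, ne⟩ := one_lt_card.1 (show 1 < U.card by omega)
  have inj : Set.InjOn (fun g => a g / a h) U := fun g hg j hj e =>
    u2 hg hj ((div_left_inj' (h0 h (u1 hh))).1 e)
  by_cases t : ∃ t : Perm ℂ, ∃ v, v ≠ 0 ∧ (∀ z, t z = z + v) ∧ Df c t (12 * k)
  · obtain ⟨t, v, v0, t1, t2⟩ := t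
    have e : ∀ g ∈ U, ∀ z, (g * h⁻¹ * t * (g * h⁻¹)⁻¹) z = z + a g / a h * v := fun g hg z => by
      obtain ⟨y, rfl⟩ := (g * h⁻¹).surjective z
      rw [Perm.mul_apply, Perm.mul_apply, Perm.coe_inv, symm_apply_apply, t1,
        qt g (u1 hg) h (u1 hh), qt g (u1 hg) h (u1 hh)]
      ring
    refine tr (U.image fun g => g * h⁻¹ * t * (g * h⁻¹)⁻¹) (by
      rwa [card_image_of_injOn fun g hg j hj k => inj hg hj (by
        have := congrArg (fun p : Perm ℂ => p 0) k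
        simp only [e g hg, e j hj, zero_add] at this
        exact mul_right_cancel₀ v0 this)]) fun s hs => ?_
    obtain ⟨g, hg, rfl⟩ := mem_image.1 hs
    have := (h2 g (u1 hg)).mul (h2 h (u1 hh)).inv
    exact ⟨⟨_, e g hg⟩, ((this.mul t2).mul this.inv).mono (by omega)⟩
  push Not at t
  set p := a j / a h with hp
  have p1 : p ≠ 1 := fun e => ne (inj hh hj (by simp only [← hp, e, div_self (h0 h (u1 hh))]))
  have p0 : p ≠ 0 := div_ne_zero (h0 j (u1 hj)) (h0 h (u1 hh))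
  have p2 : 1 - p ≠ 0 := sub_ne_zero.2 p1.symm
  set o := (b j - p * b h) / (1 - p) with ho
  have r : ∀ z, (j * h⁻¹) z = p * (z - o) + o := fun z => by
    rw [qt j (u1 hj) h (u1 hh), ← hp, ho]; field_simp; ring
  have fix : ∀ g ∈ G, g o = o := fun g hg => by
    by_contra n
    have s := cj g hg _ p o o r
    have q1 : σ p ≠ 1 := fun e => p1 (by rw [← hσ p, e, map_one])
    have d1 := (h2 j (u1 hj)).mul (h2 h (u1 hh)).inv
    have d2 := ((h2 g hg).mul d1).mul (h2 g hg).inv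
    generalize g * (j * h⁻¹) * g⁻¹ = s' at s d2
    generalize j * h⁻¹ = r' at r d1
    refine t (r' * s' * (s' * r')⁻¹) ((p - 1) * (σ p - 1) * (o - g o))
      (mul_ne_zero (mul_ne_zero (sub_ne_zero.2 p1) (sub_ne_zero.2 q1)) (sub_ne_zero.2 (Ne.symm n)))
      (fun z => ?_) (((d1.mul d2).mul (d2.mul d1).inv).mono (by omega))
    obtain ⟨y, rfl⟩ := (s' * r').surjective z
    rw [Perm.mul_apply, Perm.coe_inv, symm_apply_apply]
    simp only [Perm.mul_apply, r, s]; ring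
  obtain ⟨d, E, e1, e2, e3⟩ := iso2 c (Rot o) (by
    rintro g ⟨u, -, hu⟩ h ⟨v, -, hv⟩
    ext z; simp only [Perm.mul_apply, hu, hv]; ring) {o}ᶜ (by
    rintro g ⟨u, u0, hu⟩ x hx e
    rw [Set.mem_singleton_iff, hu, add_eq_right, mul_eq_zero, sub_eq_zero] at e
    exact e.elim u0 hx) (by
    rintro g ⟨u, -, hu⟩ x hx e
    have : (u - 1) * (x - o) = 0 := by rw [hu] at e; linear_combination e
    ext z
    rw [hu, sub_eq_zero.1 ((mul_eq_zero.1 this).resolve_right (sub_ne_zero.2 hx))]; simp)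
    (k := k) (U.image (· * h⁻¹)) (fun t ht => by
      obtain ⟨g, hg, rfl⟩ := mem_image.1 ht
      refine ⟨⟨a g / a h, div_ne_zero (h0 g (u1 hg)) (h0 h (u1 hh)), fun z => ?_⟩,
        ((h2 g (u1 hg)).mul (h2 h (u1 hh)).inv).mono (by omega)⟩
      have : (g * h⁻¹) o = o := by
        rw [Perm.mul_apply, Perm.inv_eq_iff_eq.2 (fix h (u1 hh)).symm, fix g (u1 hg)]
      rw [qt g (u1 hg) h (u1 hh)] at this ⊢
      linear_combination this)
    (by rw [card_image_of_injective _ (mul_left_injective _)]; omega)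
  refine ⟨G, Subset.refl _, MG, d, E, e1, e2, fun g hg x => ?_⟩
  by_cases hx : x = o
  · rw [hx, fix g hg]
  refine e3 g (h2 g hg) ?_ (fun y hy e => hy (g.injective (e.trans (fix g hg).symm))) x hx
  rintro h ⟨u, u0, hu⟩
  exact ⟨σ u, (map_ne_zero σ).2 u0, fun z => by rw [cj g hg h u o o hu, fix g hg]⟩

end Pool.Agent.H.MP_84fce2_co
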